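import Mathlib

set_option autoImplicit false

namespace Pool.Agent.Helper876.AQ

open MeasureTheory Metric Set Module Measure
open scoped ENNReal NNReal

variable {E : Type*} [NormedAddCommGroup E] [NormedSpace ℝ E] [MeasurableSpace E]
  [BorelSpace E] [FiniteDimensional ℝ E] [Nontrivial E] (μ : Measure E) [μ.IsAddHaarMeasure]

/-- polar coordinates for the lower integral -/
lemma lintegral_polar {f : E → ℝ≥0∞} (hf : Measurable f) :
    ∫⁻ x, f x ∂μ = ∫⁻ u : sphere (0 : E) 1, ∫⁻ r : Ioi (0 : ℝ), f (r.1 • u.1)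
      ∂(volumeIoiPow (finrank ℝ E - 1)) ∂μ.toSphere := by
  have hms : MeasurableSet ({0}ᶜ : Set E) := (measurableSet_singleton _).compl
  have h1 : ∫⁻ x, f x ∂μ = ∫⁻ x : ({0}ᶜ : Set E), f x ∂(μ.comap (↑)) := by
    rw [lintegral_subtype_comap hms, restrict_compl_singleton]
  have hmp := μ.measurePreserving_homeomorphUnitSphereProd
  have h2 : ∀ x : ({0}ᶜ : Set E), f x = (fun p : sphere (0 : E) 1 × Ioi (0 : ℝ) => f (p.2.1 • p.1.1))
      (homeomorphUnitSphereProd E x) := by
    intro x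
    have hx : (x : E) = ((homeomorphUnitSphereProd E).symm (homeomorphUnitSphereProd E x) : ({0}ᶜ : Set E)) := by
      rw [Homeomorph.symm_apply_apply]
    conv_lhs => rw [hx, homeomorphUnitSphereProd_symm_apply_coe]
  have hg : Measurable (fun p : sphere (0 : E) 1 × Ioi (0 : ℝ) => f (p.2.1 • p.1.1)) := by
    apply hf.comp
    exact (measurable_subtype_coe.comp measurable_snd).smul (measurable_subtype_coe.comp measurable_fst)
  rw [h1, lintegral_congr h2, hmp.lintegral_comp hg, lintegral_prod _ hg.aemeasurable]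

/-- The volume of a star body as an average. -/
lemma polar_identity {N : E → ℝ} (hN : Measurable N) (hN1 : ∀ (r : ℝ) (x : E), 0 < r → N (r • x) = r * N x)
    (hN2 : ∀ x, x ≠ 0 → 0 < N x) :
    μ {x | N x < 1} = ∫⁻ x in ball (0 : E) 1, ENNReal.ofReal ((‖x‖ / N x) ^ finrank ℝ E) ∂μ := by
  set n := finrank ℝ E with hn
  have hnpos : 0 < n := finrank_pos
  have hms : MeasurableSet {x | N x < 1} := measurableSet_lt hN measurable_const
  have hmF : Measurable fun x : E => ENNReal.ofReal ((‖x‖ / N x) ^ n) :=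
    ENNReal.measurable_ofReal.comp ((measurable_norm.div hN).pow_const n)
  rw [← lintegral_indicator_one hms, ← lintegral_indicator measurableSet_ball,
    lintegral_polar μ (measurable_one.indicator hms),
    lintegral_polar μ (hmF.indicator measurableSet_ball)]
  refine lintegral_congr fun u => ?_
  have hu : ‖(u : E)‖ = 1 := by simpa using u.2
  have hu0 : (u : E) ≠ 0 := by
    intro h; rw [h, norm_zero] at hu; exact zero_ne_one hu
  have hNu := hN2 u hu0
  -- left side
  have hL : ∀ r : Ioi (0 : ℝ), ({x : E | N x < 1}.indicator (1 : E → ℝ≥0∞)) (r.1 • u.1) =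
      (Iio (⟨1 / N u, one_div_pos.2 hNu⟩ : Ioi (0 : ℝ))).indicator 1 r := by
    intro r
    have hr : 0 < r.1 := r.2
    have hiff : (r.1 • u.1 ∈ {x : E | N x < 1}) ↔ r ∈ Iio (⟨1 / N u, one_div_pos.2 hNu⟩ : Ioi (0 : ℝ)) := by
      rw [mem_ofPred_eq, hN1 _ _ hr, mem_Iio, ← Subtype.coe_lt_coe]
      simp only
      rw [lt_div_iff₀ hNu]
    by_cases h : r.1 • u.1 ∈ {x : E | N x < 1}
    · rw [indicator_of_mem h, indicator_of_mem (hiff.1 h)]; rfl
    · rw [indicator_of_notMem h, indicator_of_notMem (fun h' => h (hiff.2 h'))]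
  -- right side
  have hR : ∀ r : Ioi (0 : ℝ), ((ball (0 : E) 1).indicator
      (fun x => ENNReal.ofReal ((‖x‖ / N x) ^ n))) (r.1 • u.1) =
      (Iio (⟨1, mem_Ioi.2 one_pos⟩ : Ioi (0 : ℝ))).indicator (fun _ => ENNReal.ofReal ((1 / N u) ^ n)) r := by
    intro r
    have hr : 0 < r.1 := r.2
    have hnorm : ‖r.1 • u.1‖ = r.1 := by
      rw [norm_smul, hu, mul_one, Real.norm_of_nonneg hr.le]
    have hiff : (r.1 • u.1 ∈ ball (0 : E) 1) ↔ r ∈ Iio (⟨1, mem_Ioi.2 one_pos⟩ : Ioi (0 : ℝ)) := by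
      rw [mem_ball_zero_iff, hnorm, mem_Iio, ← Subtype.coe_lt_coe]
    by_cases h : r.1 • u.1 ∈ ball (0 : E) 1
    · rw [indicator_of_mem h, indicator_of_mem (hiff.1 h), hnorm, hN1 _ _ hr,
        ← div_div, div_self hr.ne']
    · rw [indicator_of_notMem h, indicator_of_notMem (fun h' => h (hiff.2 h'))]
  rw [lintegral_congr hL, lintegral_congr hR, lintegral_indicator measurableSet_Iio,
    lintegral_indicator measurableSet_Iio]
  simp only [Pi.one_apply, lintegral_const, restrict_apply MeasurableSet.univ, univ_inter, one_mul]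
  rw [volumeIoiPow_apply_Iio, volumeIoiPow_apply_Iio, Nat.sub_add_cancel hnpos,
    ← ENNReal.ofReal_mul (by positivity)]
  congr 1
  rw [one_pow]
  ring

omit [Nontrivial E] in
/-- gamma form -/
lemma integral_exp_neg {N : E → ℝ} (h1 : N 0 = 0) (h2 : ∀ x, N (-x) = N x)
    (h3 : ∀ x y, N (x + y) ≤ N x + N y) (h4 : ∀ {x}, N x = 0 → x = 0)
    (h5 : ∀ r x, N (r • x) ≤ |r| * (N x)) :
    μ {x | N x < 1} = ENNReal.ofReal ((∫ x, Real.exp (-(N x)) ∂μ) / (finrank ℝ E).factorial) := by
  have := MeasureTheory.measure_lt_one_eq_integral_div_gamma μ h1 h2 h3 h4 h5 one_pos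
  simp only [Real.rpow_one, div_one, Real.Gamma_nat_eq_factorial] at this
  exact this

end Pool.Agent.Helper876.AQ
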