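import Mathlib
import Pool.Agent.Helper876.AQ.Polar

set_option autoImplicit false

namespace Pool.Agent.Helper876.AQ

open MeasureTheory Metric Set Module Measure
open scoped ENNReal NNReal

/-- the volume of the unit ball of `ℝ^k` -/
noncomputable def kap (k : ℕ) : ℝ := √Real.pi ^ k / Real.Gamma (k / 2 + 1)

lemma kap_pos (k : ℕ) : 0 < kap k := by
  unfold kap
  have : 0 < Real.Gamma ((k:ℝ) / 2 + 1) := Real.Gamma_pos_of_pos (by positivity)
  have : 0 < √Real.pi := Real.sqrt_pos.2 Real.pi_pos
  positivity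

variable {ι : Type*} [Fintype ι]

lemma vol_ball_one [Nonempty ι] : volume (ball (0 : EuclideanSpace ℝ ι) 1) =
    ENNReal.ofReal (kap (Fintype.card ι)) := by
  rw [EuclideanSpace.volume_ball]
  simp [kap]

/-- `∫ exp (-c ‖x‖)` -/
lemma integral_exp_norm [Nonempty ι] {c : ℝ} (hc : 0 < c) :
    ∫ x : EuclideanSpace ℝ ι, Real.exp (-(c * ‖x‖)) =
      kap (Fintype.card ι) * (Fintype.card ι).factorial / c ^ (Fintype.card ι) := by
  have h := integral_exp_neg (volume : Measure (EuclideanSpace ℝ ι)) (N := fun x => c * ‖x‖)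
    (by simp) (by intro x; simp) (by
      intro x y
      have := norm_add_le x y
      nlinarith) (by
      intro x hx
      rcases mul_eq_zero.1 hx with h | h
      · exact absurd h hc.ne'
      · simpa using h) (by
      intro r x
      rw [norm_smul, Real.norm_eq_abs]
      apply le_of_eq; ring)
  have h2 : {x : EuclideanSpace ℝ ι | c * ‖x‖ < 1} = ball 0 (1 / c) := by
    ext x
    rw [mem_ofPred_eq, mem_ball_zero_iff, lt_div_iff₀ hc, mul_comm]
  rw [h2, EuclideanSpace.volume_ball, finrank_euclideanSpace,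
    ← ENNReal.ofReal_pow (by positivity), ← ENNReal.ofReal_mul (by positivity)] at h
  have hpos : 0 ≤ ∫ x : EuclideanSpace ℝ ι, Real.exp (-(c * ‖x‖)) :=
    integral_nonneg fun x => (Real.exp_pos _).le
  have hk : √Real.pi ^ Fintype.card ι / Real.Gamma ((Fintype.card ι : ℝ) / 2 + 1) =
      kap (Fintype.card ι) := rfl
  rw [hk, ENNReal.ofReal_eq_ofReal_iff (mul_nonneg (by positivity) (kap_pos _).le)
    (by positivity)] at h
  have hf : ((Fintype.card ι).factorial : ℝ) ≠ 0 := by positivity
  rw [eq_div_iff hf] at h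
  rw [← h]
  rw [one_div, inv_pow]
  ring

/-- partial norm -/
noncomputable def pn (p : ι → Prop) [DecidablePred p] (x : EuclideanSpace ℝ ι) : ℝ :=
  √(∑ i, if p i then x i ^ 2 else 0)

lemma sum_if_eq (p : ι → Prop) [DecidablePred p] (f : ι → ℝ) :
    ∑ i, (if p i then f i else 0) = ∑ i : {i // p i}, f i := by
  rw [← Finset.sum_filter]
  exact (Finset.sum_subtype (Finset.univ.filter p) (by simp) f)

/-- projection to the coordinates in `p` -/
noncomputable def pr (p : ι → Prop) (x : EuclideanSpace ℝ ι) : EuclideanSpace ℝ {i // p i} :=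
  WithLp.toLp 2 fun i => x i

lemma pn_eq (p : ι → Prop) [DecidablePred p] (x : EuclideanSpace ℝ ι) : pn p x = ‖pr p x‖ := by
  rw [EuclideanSpace.norm_eq, pn, sum_if_eq]
  simp [pr]

lemma pn_zero (p : ι → Prop) [DecidablePred p] : pn p (0 : EuclideanSpace ℝ ι) = 0 := by
  simp [pn]

lemma pr_add (p : ι → Prop) (x y : EuclideanSpace ℝ ι) : pr p (x + y) = pr p x + pr p y := rfl

lemma pr_smul (p : ι → Prop) (c : ℝ) (x : EuclideanSpace ℝ ι) : pr p (c • x) = c • pr p x := rfl

lemma pn_add (p : ι → Prop) [DecidablePred p] (x y : EuclideanSpace ℝ ι) :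
    pn p (x + y) ≤ pn p x + pn p y := by
  rw [pn_eq, pn_eq, pn_eq, pr_add]; exact norm_add_le _ _

lemma pn_smul (p : ι → Prop) [DecidablePred p] (c : ℝ) (x : EuclideanSpace ℝ ι) :
    pn p (c • x) = |c| * pn p x := by
  rw [pn_eq, pn_eq, pr_smul, norm_smul, Real.norm_eq_abs]

lemma pn_nonneg (p : ι → Prop) [DecidablePred p] (x : EuclideanSpace ℝ ι) : 0 ≤ pn p x :=
  Real.sqrt_nonneg _

lemma pn_sq (p : ι → Prop) [DecidablePred p] (x : EuclideanSpace ℝ ι) :
    pn p x ^ 2 + pn (fun i => ¬ p i) x ^ 2 = ‖x‖ ^ 2 := by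
  rw [EuclideanSpace.norm_sq_eq, pn, pn, Real.sq_sqrt, Real.sq_sqrt, ← Finset.sum_add_distrib]
  · refine Finset.sum_congr rfl fun i _ => ?_
    by_cases h : p i <;> simp [h]
  · exact Finset.sum_nonneg fun i _ => by split_ifs <;> positivity
  · exact Finset.sum_nonneg fun i _ => by split_ifs <;> positivity

lemma pn_continuous (p : ι → Prop) [DecidablePred p] : Continuous (pn p) := by
  unfold pn
  apply Real.continuous_sqrt.comp
  refine continuous_finsetSum _ fun i _ => ?_
  split_ifs
  · fun_prop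
  · fun_prop

/-- the mixed norm -/
noncomputable def mn (p : ι → Prop) [DecidablePred p] (a b : ℝ) (x : EuclideanSpace ℝ ι) : ℝ :=
  a * pn p x + b * pn (fun i => ¬ p i) x

lemma mn_pos (p : ι → Prop) [DecidablePred p] {a b : ℝ} (ha : 0 < a) (hb : 0 < b)
    {x : EuclideanSpace ℝ ι} (hx : x ≠ 0) : 0 < mn p a b x := by
  have h1 := pn_sq p x
  have h2 : 0 < ‖x‖ := norm_pos_iff.2 hx
  have h3 := pn_nonneg p x
  have h4 := pn_nonneg (fun i => ¬ p i) x
  unfold mn
  rcases lt_or_eq_of_le h3 with h | h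
  · positivity
  · have : 0 < pn (fun i => ¬ p i) x := by
      rcases lt_or_eq_of_le h4 with h' | h'
      · exact h'
      · exfalso
        rw [← h, ← h'] at h1
        nlinarith
    positivity

lemma integral_mn (p : ι → Prop) [DecidablePred p] [Nonempty {i // p i}] [Nonempty {i // ¬ p i}]
    {a b : ℝ} (ha : 0 < a) (hb : 0 < b) :
    ∫ x : EuclideanSpace ℝ ι, Real.exp (-(mn p a b x)) =
      (kap (Fintype.card {i // p i}) * (Fintype.card {i // p i}).factorial /
        a ^ (Fintype.card {i // p i})) *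
      (kap (Fintype.card {i // ¬ p i}) * (Fintype.card {i // ¬ p i}).factorial /
        b ^ (Fintype.card {i // ¬ p i})) := by
  rw [← integral_exp_norm ha, ← integral_exp_norm hb]
  have h1 : ∫ x : EuclideanSpace ℝ ι, Real.exp (-(mn p a b x)) =
      ∫ y : ι → ℝ, Real.exp (-(mn p a b (WithLp.toLp 2 y))) :=
    ((PiLp.volume_preserving_toLp ι).integral_comp
      (MeasurableEquiv.toLp 2 (ι → ℝ)).measurableEmbedding _).symm
  have h2 : ∀ (q : ι → Prop) [DecidablePred q] (c : ℝ),
      ∫ x : EuclideanSpace ℝ {i // q i}, Real.exp (-(c * ‖x‖)) =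
      ∫ y : {i // q i} → ℝ, Real.exp (-(c * ‖(WithLp.toLp 2 y : EuclideanSpace ℝ {i // q i})‖)) := by
    intro q _ c
    exact ((PiLp.volume_preserving_toLp {i // q i}).integral_comp
      (MeasurableEquiv.toLp 2 ({i // q i} → ℝ)).measurableEmbedding _).symm
  rw [h1, h2, h2]
  have hmp := volume_preserving_piEquivPiSubtypeProd (fun _ : ι => ℝ) p
  rw [← integral_prod_mul]
  have h3 := hmp.integral_comp (MeasurableEquiv.measurableEmbedding _)
    (fun z : ({i // p i} → ℝ) × ({i // ¬ p i} → ℝ) =>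
      Real.exp (-(a * ‖(WithLp.toLp 2 z.1 : EuclideanSpace ℝ {i // p i})‖)) *
      Real.exp (-(b * ‖(WithLp.toLp 2 z.2 : EuclideanSpace ℝ {i // ¬ p i})‖)))
  refine Eq.trans ?_ h3
  refine integral_congr_ae (Filter.Eventually.of_forall fun y => ?_)
  simp only
  rw [← Real.exp_add]
  congr 1
  unfold mn
  rw [pn_eq, pn_eq]
  have e1 : pr p (WithLp.toLp 2 y : EuclideanSpace ℝ ι) =
    WithLp.toLp 2 ((MeasurableEquiv.piEquivPiSubtypeProd (fun _ : ι => ℝ) p) y).1 := rfl
  have e2 : pr (fun i => ¬ p i) (WithLp.toLp 2 y : EuclideanSpace ℝ ι) =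
    WithLp.toLp 2 ((MeasurableEquiv.piEquivPiSubtypeProd (fun _ : ι => ℝ) p) y).2 := rfl
  rw [e1, e2]
  ring

lemma vol_mn (p : ι → Prop) [DecidablePred p] [Nonempty {i // p i}] [Nonempty {i // ¬ p i}]
    {a b : ℝ} (ha : 0 < a) (hb : 0 < b) :
    volume {x : EuclideanSpace ℝ ι | mn p a b x < 1} = ENNReal.ofReal (
      ((kap (Fintype.card {i // p i}) * (Fintype.card {i // p i}).factorial /
        a ^ (Fintype.card {i // p i})) *
      (kap (Fintype.card {i // ¬ p i}) * (Fintype.card {i // ¬ p i}).factorial /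
        b ^ (Fintype.card {i // ¬ p i}))) / (Fintype.card ι).factorial) := by
  rw [← integral_mn p ha hb]
  have h := integral_exp_neg (volume : Measure (EuclideanSpace ℝ ι)) (N := mn p a b)
    (by simp [mn, pn_zero]) (by
      intro x
      have : -x = (-1 : ℝ) • x := by simp
      rw [this, mn, mn, pn_smul, pn_smul]; simp) (by
      intro x y
      have h1 := pn_add p x y
      have h2 := pn_add (fun i => ¬ p i) x y
      unfold mn
      nlinarith) (by
      intro x hx
      by_contra h0
      exact absurd hx (mn_pos p ha hb h0).ne') (by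
      intro r x
      rw [mn, mn, pn_smul, pn_smul]
      apply le_of_eq; ring)
  rw [h, finrank_euclideanSpace]

/-- The average form -/
lemma avg_mn (p : ι → Prop) [DecidablePred p] [Nonempty {i // p i}] [Nonempty {i // ¬ p i}]
    {a b : ℝ} (ha : 0 < a) (hb : 0 < b) :
    ∫⁻ x in ball (0 : EuclideanSpace ℝ ι) 1,
      ENNReal.ofReal ((‖x‖ / mn p a b x) ^ (Fintype.card ι)) = ENNReal.ofReal (
      ((kap (Fintype.card {i // p i}) * (Fintype.card {i // p i}).factorial /
        a ^ (Fintype.card {i // p i})) *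
      (kap (Fintype.card {i // ¬ p i}) * (Fintype.card {i // ¬ p i}).factorial /
        b ^ (Fintype.card {i // ¬ p i}))) / (Fintype.card ι).factorial) := by
  have : Nonempty ι := ⟨(Classical.arbitrary {i // p i}).1⟩
  have : Nontrivial (EuclideanSpace ℝ ι) := by
    classical
    exact ⟨⟨0, EuclideanSpace.single (Classical.arbitrary ι) 1, by
      intro h
      have := congrArg (fun x : EuclideanSpace ℝ ι => x (Classical.arbitrary ι)) h
      simp at this⟩⟩
  rw [← vol_mn p ha hb]
  have := polar_identity (volume : Measure (EuclideanSpace ℝ ι)) (N := mn p a b)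
    (by
      unfold mn
      exact ((((pn_continuous p).const_mul a).add
        ((pn_continuous (fun i => ¬ p i)).const_mul b))).measurable)
    (by
      intro r x hr
      rw [mn, mn, pn_smul, pn_smul, abs_of_pos hr]; ring)
    (fun x hx => mn_pos p ha hb hx)
  rw [this, finrank_euclideanSpace]

end Pool.Agent.Helper876.AQ
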