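import Mathlib
import Pool.Agent.Helper876.AQ.Volumes

set_option autoImplicit false

namespace Pool.Agent.Helper876.AQ

open MeasureTheory Metric Set Module Measure
open scoped ENNReal NNReal RealInnerProductSpace

variable {E : Type*} [NormedAddCommGroup E] [InnerProductSpace ℝ E] [FiniteDimensional ℝ E]
  [MeasurableSpace E] [BorelSpace E]

/-- the cylinder with axis `e` -/
def cyl (e : E) : Set E := {x | |⟪e, x⟫| ≤ 1 ∧ ‖x - ⟪e, x⟫ • e‖ ≤ 1}

omit [FiniteDimensional ℝ E] [MeasurableSpace E] [BorelSpace E] in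
lemma norm_sub_sq {e : E} (he : ‖e‖ = 1) (x : E) :
    ‖x - ⟪e, x⟫ • e‖ ^ 2 = ‖x‖ ^ 2 - ⟪e, x⟫ ^ 2 := by
  rw [norm_sub_sq_real, norm_smul, he, inner_smul_right, real_inner_comm, Real.norm_eq_abs,
    mul_one, sq_abs]
  ring

omit [FiniteDimensional ℝ E] [MeasurableSpace E] [BorelSpace E] in
lemma ball_sub_cyl {e : E} (he : ‖e‖ = 1) : ball (0 : E) 1 ⊆ cyl e := by
  intro x hx
  rw [mem_ball_zero_iff] at hx
  constructor
  · calc |⟪e, x⟫| ≤ ‖e‖ * ‖x‖ := abs_real_inner_le_norm _ _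
      _ ≤ 1 := by rw [he, one_mul]; exact hx.le
  · have h1 := norm_sub_sq he x
    have h2 : ‖x - ⟪e, x⟫ • e‖ ^ 2 ≤ 1 ^ 2 := by
      rw [h1]
      nlinarith [sq_nonneg ⟪e, x⟫, norm_nonneg x]
    exact (pow_le_pow_iff_left₀ (norm_nonneg _) zero_le_one two_ne_zero).1 h2

omit [FiniteDimensional ℝ E] [MeasurableSpace E] [BorelSpace E] in
lemma cyl_sub_ball {e : E} (he : ‖e‖ = 1) : cyl e ⊆ closedBall (0 : E) 2 := by
  rintro x ⟨h1, h2⟩
  rw [mem_closedBall_zero_iff]
  calc ‖x‖ = ‖(x - ⟪e, x⟫ • e) + ⟪e, x⟫ • e‖ := by congr 1; abel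
    _ ≤ ‖x - ⟪e, x⟫ • e‖ + ‖⟪e, x⟫ • e‖ := norm_add_le _ _
    _ ≤ 1 + 1 := by
        rw [norm_smul, he, mul_one, Real.norm_eq_abs]
        linarith
    _ = 2 := by norm_num

omit [MeasurableSpace E] [BorelSpace E] in
lemma cyl_compact {e : E} (he : ‖e‖ = 1) : IsCompact (cyl e) := by
  refine (isCompact_closedBall (0 : E) 2).of_isClosed_subset ?_ (cyl_sub_ball he)
  have h1 : Continuous fun x : E => ⟪e, x⟫ := by fun_prop
  exact (isClosed_le (f := fun x : E => |⟪e, x⟫|) (by fun_prop) continuous_const).inter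
    (isClosed_le (f := fun x : E => ‖x - ⟪e, x⟫ • e‖) (by fun_prop) continuous_const)

omit [FiniteDimensional ℝ E] [MeasurableSpace E] [BorelSpace E] in
lemma cyl_convex (e : E) : Convex ℝ (cyl e) := by
  intro x hx y hy a b ha hb hab
  constructor
  · rw [inner_add_right, inner_smul_right, inner_smul_right]
    calc |a * ⟪e, x⟫ + b * ⟪e, y⟫| ≤ |a * ⟪e, x⟫| + |b * ⟪e, y⟫| := abs_add_le _ _
      _ = a * |⟪e, x⟫| + b * |⟪e, y⟫| := by rw [abs_mul, abs_mul, abs_of_nonneg ha, abs_of_nonneg hb]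
      _ ≤ a * 1 + b * 1 := by
          have := mul_le_mul_of_nonneg_left hx.1 ha
          have := mul_le_mul_of_nonneg_left hy.1 hb
          linarith
      _ = 1 := by rw [mul_one, mul_one, hab]
  · have h1 : a • x + b • y - ⟪e, a • x + b • y⟫ • e =
        a • (x - ⟪e, x⟫ • e) + b • (y - ⟪e, y⟫ • e) := by
      rw [inner_add_right, inner_smul_right, inner_smul_right, add_smul, smul_sub, smul_sub,
        smul_smul, smul_smul]
      abel
    rw [h1]
    calc ‖a • (x - ⟪e, x⟫ • e) + b • (y - ⟪e, y⟫ • e)‖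
        ≤ ‖a • (x - ⟪e, x⟫ • e)‖ + ‖b • (y - ⟪e, y⟫ • e)‖ := norm_add_le _ _
      _ = a * ‖x - ⟪e, x⟫ • e‖ + b * ‖y - ⟪e, y⟫ • e‖ := by
          rw [norm_smul, norm_smul, Real.norm_of_nonneg ha, Real.norm_of_nonneg hb]
      _ ≤ a * 1 + b * 1 := by
          have := mul_le_mul_of_nonneg_left hx.2 ha
          have := mul_le_mul_of_nonneg_left hy.2 hb
          linarith
      _ = 1 := by rw [mul_one, mul_one, hab]

variable (F : Submodule ℝ E)

omit [MeasurableSpace E] [BorelSpace E] in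
lemma ball_sub_proj {e : E} (he : ‖e‖ = 1) :
    ball (0 : F) 1 ⊆ F.orthogonalProjectionOnto '' cyl e := by
  intro y hy
  refine ⟨(y : E), ball_sub_cyl he ?_, ?_⟩
  · rw [mem_ball_zero_iff] at *
    exact hy
  · exact Submodule.orthogonalProjectionOnto_mem_subspace_eq_self y

omit [MeasurableSpace E] [BorelSpace E] in
lemma proj_sub_ball {e : E} (he : ‖e‖ = 1) :
    F.orthogonalProjectionOnto '' cyl e ⊆ closedBall (0 : F) 2 := by
  rintro _ ⟨x, hx, rfl⟩
  rw [mem_closedBall_zero_iff]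
  have h1 := cyl_sub_ball he hx
  rw [mem_closedBall_zero_iff] at h1
  exact (Submodule.norm_orthogonalProjectionOnto_apply_le F x).trans h1

lemma vol_ball_sub (hF : 0 < finrank ℝ F) (R : ℝ) (hR : 0 ≤ R) :
    volume (closedBall (0 : F) R) = ENNReal.ofReal (R ^ finrank ℝ F * kap (finrank ℝ F)) := by
  have : Nontrivial F := Module.nontrivial_of_finrank_pos (R := ℝ) hF
  rw [InnerProductSpace.volume_closedBall, ← ENNReal.ofReal_pow hR,
    ← ENNReal.ofReal_mul (by positivity)]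
  rfl

lemma vol_proj_le (hF : 0 < finrank ℝ F) {e : E} (he : ‖e‖ = 1) :
    volume (F.orthogonalProjectionOnto '' cyl e) ≤
      ENNReal.ofReal (2 ^ finrank ℝ F * kap (finrank ℝ F)) := by
  rw [← vol_ball_sub F hF 2 (by norm_num)]
  exact measure_mono (proj_sub_ball F he)

lemma le_vol_proj (hF : 0 < finrank ℝ F) {e : E} (he : ‖e‖ = 1) :
    ENNReal.ofReal (kap (finrank ℝ F)) ≤ volume (F.orthogonalProjectionOnto '' cyl e) := by
  have h1 := vol_ball_sub F hF 1 (by norm_num)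
  rw [one_pow, one_mul] at h1
  have : Nontrivial F := Module.nontrivial_of_finrank_pos (R := ℝ) hF
  rw [← h1, addHaar_closedBall_eq_addHaar_ball]
  exact measure_mono (ball_sub_proj F he)

/-- one dimensional projections -/
lemma vol_proj_one (hF : finrank ℝ F = 1) {e : E} (he : ‖e‖ = 1) {v : E} (hv : v ∈ F) (hv0 : v ≠ 0) :
    volume (F.orthogonalProjectionOnto '' cyl e) ≤
      ENNReal.ofReal (2 * ((|⟪e, v⟫| + ‖v - ⟪e, v⟫ • e‖) / ‖v‖)) := by
  have hvn : 0 < ‖v‖ := norm_pos_iff.2 hv0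
  set R : ℝ := (|⟪e, v⟫| + ‖v - ⟪e, v⟫ • e‖) / ‖v‖ with hR
  have hR0 : 0 ≤ R := by positivity
  have hk : kap 1 = 2 := by
    unfold kap
    have : ((1 : ℕ) : ℝ) / 2 + 1 = 1 / 2 + 1 := by norm_num
    rw [this, Real.Gamma_add_one (by norm_num), Real.Gamma_one_half_eq, pow_one]
    have : √Real.pi ≠ 0 := (Real.sqrt_pos.2 Real.pi_pos).ne'
    field_simp
  have h1 := vol_ball_sub F (by omega) R hR0
  rw [hF, hk, pow_one, mul_comm] at h1
  rw [← h1]
  apply measure_mono
  rintro _ ⟨x, hx, rfl⟩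
  rw [mem_closedBall_zero_iff]
  -- `F = span v`
  have hspan : ∀ y : F, ∃ c : ℝ, (y : E) = c • v := by
    intro y
    have h2 := (finrank_eq_one_iff_of_nonzero' (⟨v, hv⟩ : F) (by
      intro h; apply hv0; exact congrArg Subtype.val h)).1 hF y
    obtain ⟨c, hc⟩ := h2
    exact ⟨c, by rw [← hc]; rfl⟩
  obtain ⟨c, hc⟩ := hspan (F.orthogonalProjectionOnto x)
  have hinner : ⟪v, x⟫ = c * ‖v‖ ^ 2 := by
    have h3 := Submodule.inner_orthogonalProjectionOnto_eq_of_mem_left (⟨v, hv⟩ : F) x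
    have h4 : ⟪(⟨v, hv⟩ : F), F.orthogonalProjectionOnto x⟫ = ⟪v, (F.orthogonalProjectionOnto x : E)⟫ := rfl
    rw [h4, hc, inner_smul_right, real_inner_self_eq_norm_sq] at h3
    exact h3.symm
  have hnorm : ‖F.orthogonalProjectionOnto x‖ = |⟪v, x⟫| / ‖v‖ := by
    have h5 : ‖F.orthogonalProjectionOnto x‖ = ‖(F.orthogonalProjectionOnto x : E)‖ := rfl
    rw [h5, hc, norm_smul, Real.norm_eq_abs, hinner, abs_mul, abs_of_nonneg (by positivity : (0:ℝ) ≤ ‖v‖ ^ 2)]
    field_simp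
  rw [hnorm, hR]
  gcongr
  have h6 : ⟪v, x⟫ = ⟪e, v⟫ * ⟪e, x⟫ + ⟪v - ⟪e, v⟫ • e, x - ⟪e, x⟫ • e⟫ := by
    rw [inner_sub_left, inner_sub_right, inner_sub_right, inner_smul_left, inner_smul_right,
      inner_smul_right, inner_smul_left, real_inner_self_eq_norm_sq, he, real_inner_comm v e]
    simp
  rw [h6]
  calc |⟪e, v⟫ * ⟪e, x⟫ + ⟪v - ⟪e, v⟫ • e, x - ⟪e, x⟫ • e⟫|
      ≤ |⟪e, v⟫ * ⟪e, x⟫| + |⟪v - ⟪e, v⟫ • e, x - ⟪e, x⟫ • e⟫| := abs_add_le _ _
    _ ≤ |⟪e, v⟫| * 1 + ‖v - ⟪e, v⟫ • e‖ * 1 := by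
        rw [abs_mul]
        have h7 := abs_real_inner_le_norm (v - ⟪e, v⟫ • e) (x - ⟪e, x⟫ • e)
        have h8 := mul_le_mul_of_nonneg_left hx.1 (abs_nonneg ⟪e, v⟫)
        have h9 := mul_le_mul_of_nonneg_left hx.2 (norm_nonneg (v - ⟪e, v⟫ • e))
        linarith
    _ = _ := by rw [mul_one, mul_one]

/-- the planar region -/
noncomputable def reg (r : ℝ) : Set (ℝ × ℝ) :=
  regionBetween (fun y => -(r + √(1 - r ^ 2) * √(1 - y ^ 2)))
    (fun y => r + √(1 - r ^ 2) * √(1 - y ^ 2)) (Ioc (-1) 1)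

lemma vol_reg {r : ℝ} (hr : 0 ≤ r) :
    volume (reg r) = ENNReal.ofReal (Real.pi * √(1 - r ^ 2) + 4 * r) := by
  have hc : Continuous fun y : ℝ => r + √(1 - r ^ 2) * √(1 - y ^ 2) := by fun_prop
  have hint : IntegrableOn (fun y : ℝ => r + √(1 - r ^ 2) * √(1 - y ^ 2)) (Ioc (-1) 1) :=
    (hc.integrableOn_Icc).mono_set Ioc_subset_Icc_self
  have h := volume_regionBetween_eq_integral (μ := (volume : Measure ℝ)) (hint.neg) hint
    measurableSet_Ioc (by
      intro y _
      have : 0 ≤ r + √(1 - r ^ 2) * √(1 - y ^ 2) := by positivity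
      simp only [Pi.neg_apply]
      linarith)
  have h2 : reg r = regionBetween (-fun y => r + √(1 - r ^ 2) * √(1 - y ^ 2))
    (fun y => r + √(1 - r ^ 2) * √(1 - y ^ 2)) (Ioc (-1) 1) := rfl
  rw [h2]
  refine Eq.trans h ?_
  congr 1
  have h3 : ∀ y, ((fun y => r + √(1 - r ^ 2) * √(1 - y ^ 2)) -
      -fun y => r + √(1 - r ^ 2) * √(1 - y ^ 2)) y =
      2 * r + 2 * √(1 - r ^ 2) * √(1 - y ^ 2) := by
    intro y; simp; ring
  rw [setIntegral_congr_fun measurableSet_Ioc (fun y _ => h3 y),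
    ← intervalIntegral.integral_of_le (by norm_num),
    intervalIntegral.integral_add (by simp) (by
      apply Continuous.intervalIntegrable
      fun_prop)]
  have h4 : ∫ x in (-1:ℝ)..1, 2 * √(1 - r ^ 2) * √(1 - x ^ 2) = 2 * √(1 - r ^ 2) * (Real.pi / 2) := by
    rw [intervalIntegral.integral_const_mul, integral_sqrt_one_sub_sq]
  rw [h4]
  simp
  ring

omit [MeasurableSpace E] [BorelSpace E] in
/-- the projection of the cylinder onto a plane contains a copy of the region -/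
lemma reg_sub {e : E} (he : ‖e‖ = 1) (b : OrthonormalBasis (Fin 2) ℝ F) {r : ℝ} (hr : 0 ≤ r)
    (hr1 : r ≤ 1) (hb : F.orthogonalProjectionOnto e = r • b 1) {y : ℝ × ℝ} (hy : y ∈ reg r) :
    y.1 • b 0 + y.2 • b 1 ∈ F.orthogonalProjectionOnto '' cyl e := by
  obtain ⟨⟨hy1, hy2⟩, hy3, hy4⟩ := hy
  simp only at hy3 hy4
  set c : ℝ := √(1 - r ^ 2) with hc
  set M : ℝ := √(1 - y.1 ^ 2) with hM
  have hc0 : 0 ≤ c := Real.sqrt_nonneg _
  have hM0 : 0 ≤ M := Real.sqrt_nonneg _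
  have hc2 : c ^ 2 = 1 - r ^ 2 := Real.sq_sqrt (by nlinarith)
  have hM2 : M ^ 2 = 1 - y.1 ^ 2 := Real.sq_sqrt (by nlinarith)
  have hb11 : ‖(b 1 : E)‖ = 1 := b.orthonormal.1 1
  have hb00 : ‖(b 0 : E)‖ = 1 := b.orthonormal.1 0
  have hb01 : ⟪(b 0 : E), (b 1 : E)⟫ = 0 := b.orthonormal.2 (by decide)
  -- inner products with `e`
  have hinn : ∀ w : F, ⟪(w : E), e⟫ = r * ⟪(w : E), (b 1 : E)⟫ := by
    intro w
    rw [← Submodule.inner_orthogonalProjectionOnto_eq_of_mem_left, hb]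
    rw [inner_smul_right]; rfl
  have he0 : ⟪(b 0 : E), e⟫ = 0 := by rw [hinn, hb01, mul_zero]
  have he1 : ⟪(b 1 : E), e⟫ = r := by
    rw [hinn, real_inner_self_eq_norm_sq, hb11]; ring
  -- the vector `h`
  obtain ⟨h, hh1, hh2, hh3, hh4⟩ : ∃ h : E, F.orthogonalProjectionOnto h = c • b 1 ∧ ‖h‖ ≤ 1 ∧
      ⟪e, h⟫ = 0 ∧ ⟪(b 0 : E), h⟫ = 0 := by
    rcases eq_or_lt_of_le hc0 with h0 | h0
    · exact ⟨0, by rw [map_zero, ← h0, zero_smul], by simp, by simp, by simp⟩
    · refine ⟨c⁻¹ • ((b 1 : E) - r • e), ?_, ?_, ?_, ?_⟩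
      · rw [map_smul, map_sub, map_smul, hb, Submodule.orthogonalProjectionOnto_mem_subspace_eq_self,
          smul_smul]
        have : b 1 - (r * r) • b 1 = (c ^ 2) • b 1 := by
          rw [hc2, sub_smul, one_smul, sq]
        rw [this, smul_smul]
        congr 1
        field_simp
      · have h5 : ‖(b 1 : E) - r • e‖ ^ 2 = c ^ 2 := by
          rw [norm_sub_sq_real, norm_smul, he, hb11, inner_smul_right, he1, hc2, Real.norm_eq_abs,
            mul_one, sq_abs]
          ring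
        have h6 : ‖(b 1 : E) - r • e‖ = c :=
          (pow_left_inj₀ (norm_nonneg _) hc0 two_ne_zero).1 h5
        rw [norm_smul, h6, norm_inv, Real.norm_of_nonneg hc0, inv_mul_cancel₀ h0.ne']
      · rw [inner_smul_right, inner_sub_right, inner_smul_right, real_inner_self_eq_norm_sq, he,
          real_inner_comm, he1]
        ring
      · rw [inner_smul_right, inner_sub_right, inner_smul_right, hb01, he0]
        ring
  -- split the second coordinate
  obtain ⟨lam, hlam1, hlam2⟩ : ∃ lam : ℝ, |lam| ≤ 1 ∧ y.2 = lam * (r + c * M) := by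
    have hG : 0 ≤ r + c * M := by positivity
    rcases eq_or_lt_of_le hG with h0 | h0
    · refine ⟨0, by simp, ?_⟩
      rw [← h0] at hy3 hy4 ⊢
      linarith
    · refine ⟨y.2 / (r + c * M), ?_, by field_simp⟩
      rw [abs_div, abs_of_pos h0, div_le_one h0, abs_le]
      constructor <;> linarith
  have hlamsq : lam ^ 2 ≤ 1 := by
    rw [← sq_abs]; nlinarith [abs_nonneg lam]
  refine ⟨lam • e + (y.1 • (b 0 : E) + (lam * M) • h), ⟨?_, ?_⟩, ?_⟩
  · have : ⟪e, lam • e + (y.1 • (b 0 : E) + (lam * M) • h)⟫ = lam := by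
      rw [inner_add_right, inner_add_right, inner_smul_right, inner_smul_right, inner_smul_right,
        real_inner_self_eq_norm_sq, he, hh3, real_inner_comm, he0]
      ring
    rw [this]; exact hlam1
  · have : ⟪e, lam • e + (y.1 • (b 0 : E) + (lam * M) • h)⟫ = lam := by
      rw [inner_add_right, inner_add_right, inner_smul_right, inner_smul_right, inner_smul_right,
        real_inner_self_eq_norm_sq, he, hh3, real_inner_comm, he0]
      ring
    rw [this, add_sub_cancel_left]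
    have h7 : ‖y.1 • (b 0 : E) + (lam * M) • h‖ ^ 2 ≤ 1 ^ 2 := by
      rw [norm_add_sq_real, norm_smul, norm_smul, hb00, inner_smul_left, inner_smul_right, hh4,
        Real.norm_eq_abs, Real.norm_eq_abs, mul_one, sq_abs, mul_pow, sq_abs, mul_pow, hM2]
      have h8 : ‖h‖ ^ 2 ≤ 1 := by nlinarith [norm_nonneg h]
      have h9 : 0 ≤ 1 - y.1 ^ 2 := by nlinarith
      have h10 : lam ^ 2 * (1 - y.1 ^ 2) * ‖h‖ ^ 2 ≤ 1 * (1 - y.1 ^ 2) * 1 := by
        gcongr
      simp only [conj_trivial, mul_zero, add_zero]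
      linarith
    exact (pow_le_pow_iff_left₀ (norm_nonneg _) zero_le_one two_ne_zero).1 h7
  · rw [map_add, map_add, map_smul, map_smul, map_smul, hb, hh1,
      Submodule.orthogonalProjectionOnto_mem_subspace_eq_self, smul_smul, smul_smul, hlam2]
    have : (lam * (r + c * M)) • b 1 = (lam * r) • b 1 + (lam * M * c) • b 1 := by
      rw [← add_smul]; congr 1; ring
    rw [this]
    abel

/-- a lower bound for the area of the projection -/
lemma le_area {e : E} (he : ‖e‖ = 1) (hF : finrank ℝ F = 2) :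
    ENNReal.ofReal (Real.pi * √(1 - ‖F.orthogonalProjectionOnto e‖ ^ 2) +
      4 * ‖F.orthogonalProjectionOnto e‖) ≤ volume (F.orthogonalProjectionOnto '' cyl e) := by
  set r := ‖F.orthogonalProjectionOnto e‖ with hr
  have hr0 : 0 ≤ r := norm_nonneg _
  have hr1 : r ≤ 1 := by
    rw [← he]; exact Submodule.norm_orthogonalProjectionOnto_apply_le F e
  -- an adapted orthonormal basis
  obtain ⟨b, hb⟩ : ∃ b : OrthonormalBasis (Fin 2) ℝ F, F.orthogonalProjectionOnto e = r • b 1 := by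
    rcases eq_or_lt_of_le hr0 with h0 | h0
    · have h1 : F.orthogonalProjectionOnto e = 0 := by
        rw [← norm_eq_zero, ← hr]; exact h0.symm
      refine ⟨(stdOrthonormalBasis ℝ F).reindex (finCongr hF), ?_⟩
      rw [h1, ← h0, zero_smul]
    · set f : F := r⁻¹ • F.orthogonalProjectionOnto e with hf
      have hfn : ‖f‖ = 1 := by
        rw [hf, norm_smul, ← hr, norm_inv, Real.norm_of_nonneg hr0, inv_mul_cancel₀ h0.ne']
      have ho : Orthonormal ℝ (({1} : Set (Fin 2)).domRestrict (fun _ : Fin 2 => f)) := by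
        constructor
        · intro i; exact hfn
        · intro i j hij
          exact absurd (Subsingleton.elim i j) hij
      obtain ⟨b, hb⟩ := ho.exists_orthonormalBasis_extension_of_card_eq (by rw [hF]; simp)
      refine ⟨b, ?_⟩
      rw [hb 1 (by simp), hf, smul_smul, mul_inv_cancel₀ h0.ne', one_smul]
  -- transfer of the area
  have hmp1 := b.measurePreserving_repr
  have hmp2 := PiLp.volume_preserving_ofLp (Fin 2)
  have hmp3 := volume_preserving_finTwoArrow ℝ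
  have hmp := (hmp3.comp hmp2).comp hmp1
  have hms : MeasurableSet (reg r) := by
    apply measurableSet_regionBetween
    · fun_prop
    · fun_prop
    · exact measurableSet_Ioc
  rw [← vol_reg hr0, ← hmp.measure_preimage hms.nullMeasurableSet]
  apply measure_mono
  intro x hx
  have h2 := reg_sub F he b hr0 hr1 hb hx
  have h3 : x = (b.repr x 0) • b 0 + (b.repr x 1) • b 1 := by
    have := b.sum_repr x
    rw [Fin.sum_univ_two] at this
    exact this.symm
  rw [h3]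
  exact h2

end Pool.Agent.Helper876.AQ
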