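import Mathlib
import Pool.Agent.Helper876.AQ.Proj

set_option autoImplicit false

namespace Pool.Agent.Helper876.AQ

open MeasureTheory Metric Set Module Measure
open scoped ENNReal NNReal RealInnerProductSpace

variable {E : Type*} [NormedAddCommGroup E] [InnerProductSpace ℝ E] [FiniteDimensional ℝ E]

/-- Gram determinant -/
noncomputable def gd (v : Fin 2 → E) : ℝ := ⟪v 0, v 0⟫ * ⟪v 1, v 1⟫ - ⟪v 0, v 1⟫ ^ 2

/-- squared norm of the projection onto the span of `v 0`, `v 1` -/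
noncomputable def tau (v : Fin 2 → E) (x : E) : ℝ :=
  (⟪v 1, v 1⟫ * ⟪v 0, x⟫ ^ 2 - 2 * ⟪v 0, v 1⟫ * ⟪v 0, x⟫ * ⟪v 1, x⟫ + ⟪v 0, v 0⟫ * ⟪v 1, x⟫ ^ 2) / gd v

omit [FiniteDimensional ℝ E] in
lemma linInd_of_gd {v : Fin 2 → E} (h : gd v ≠ 0) : LinearIndependent ℝ v := by
  have hv : v = ![v 0, v 1] := by
    funext i; fin_cases i <;> rfl
  rw [hv, LinearIndependent.pair_iff]
  intro s t hst
  have h0 : s * ⟪v 0, v 0⟫ + t * ⟪v 0, v 1⟫ = 0 := by
    have := congrArg (fun w => ⟪v 0, w⟫) hst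
    simpa [inner_add_right, inner_smul_right] using this
  have h1 : s * ⟪v 0, v 1⟫ + t * ⟪v 1, v 1⟫ = 0 := by
    have := congrArg (fun w => ⟪v 1, w⟫) hst
    simp only [inner_add_right, inner_smul_right, inner_zero_right] at this
    rw [real_inner_comm] at this
    exact this
  have hs : s * gd v = 0 := by
    unfold gd
    linear_combination ⟪v 1, v 1⟫ * h0 - ⟪v 0, v 1⟫ * h1
  have ht : t * gd v = 0 := by
    unfold gd
    linear_combination ⟪v 0, v 0⟫ * h1 - ⟪v 0, v 1⟫ * h0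
  exact ⟨(mul_eq_zero.1 hs).resolve_right h, (mul_eq_zero.1 ht).resolve_right h⟩

omit [FiniteDimensional ℝ E] in
lemma finrank_of_gd {v : Fin 2 → E} (h : gd v ≠ 0) :
    finrank ℝ (Submodule.span ℝ (Set.range v)) = 2 := by
  rw [finrank_span_eq_card (linInd_of_gd h)]; simp

lemma tau_eq {v : Fin 2 → E} (h : gd v ≠ 0) (x : E) :
    tau v x = ‖(Submodule.span ℝ (Set.range v)).orthogonalProjectionOnto x‖ ^ 2 := by
  set F := Submodule.span ℝ (Set.range v) with hF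
  set p := F.orthogonalProjectionOnto x with hp
  have hpm : (p : E) ∈ Submodule.span ℝ (Set.range v) := p.2
  rw [Submodule.mem_span_range_iff_exists_fun] at hpm
  obtain ⟨c, hc⟩ := hpm
  rw [Fin.sum_univ_two] at hc
  have hv : ∀ i, v i ∈ F := fun i => Submodule.subset_span ⟨i, rfl⟩
  have hinner : ∀ i, ⟪v i, x⟫ = ⟪v i, (p : E)⟫ := by
    intro i
    have := Submodule.inner_orthogonalProjectionOnto_eq_of_mem_left (⟨v i, hv i⟩ : F) x
    exact this.symm
  have hnorm : ‖p‖ ^ 2 = ⟪(p : E), (p : E)⟫ := by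
    rw [real_inner_self_eq_norm_sq]; rfl
  have h0 : ⟪v 0, x⟫ = c 0 * ⟪v 0, v 0⟫ + c 1 * ⟪v 0, v 1⟫ := by
    rw [hinner, ← hc, inner_add_right, inner_smul_right, inner_smul_right]
  have h1 : ⟪v 1, x⟫ = c 0 * ⟪v 0, v 1⟫ + c 1 * ⟪v 1, v 1⟫ := by
    rw [hinner, ← hc, inner_add_right, inner_smul_right, inner_smul_right, real_inner_comm (v 0) (v 1)]
  have h2 : ‖p‖ ^ 2 = c 0 ^ 2 * ⟪v 0, v 0⟫ + 2 * c 0 * c 1 * ⟪v 0, v 1⟫ + c 1 ^ 2 * ⟪v 1, v 1⟫ := by
    rw [hnorm, ← hc, inner_add_left, inner_smul_left, inner_smul_left, inner_add_right,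
      inner_add_right, inner_smul_right, inner_smul_right, inner_smul_right, inner_smul_right,
      real_inner_comm (v 0) (v 1)]
    simp only [conj_trivial]
    ring
  rw [tau, div_eq_iff h, h2, h0, h1]
  unfold gd
  ring

/-- the integrand -/
noncomputable def Theta (n : ℕ) (v : Fin 2 → E) (x : E) : ℝ≥0∞ :=
  ENNReal.ofReal ((‖x‖ / (Real.pi * √(‖x‖ ^ 2 - tau v x) + 4 * √(tau v x))) ^ n)

omit [FiniteDimensional ℝ E] in
lemma gd_map (U : E ≃ₗᵢ[ℝ] E) (v : Fin 2 → E) : gd (fun i => U (v i)) = gd v := by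
  unfold gd
  simp only [LinearIsometryEquiv.inner_map_map]

omit [FiniteDimensional ℝ E] in
lemma tau_map (U : E ≃ₗᵢ[ℝ] E) (v : Fin 2 → E) (x : E) : tau (fun i => U (v i)) (U x) = tau v x := by
  unfold tau
  rw [gd_map]
  simp only [LinearIsometryEquiv.inner_map_map]

omit [FiniteDimensional ℝ E] in
lemma Theta_map (n : ℕ) (U : E ≃ₗᵢ[ℝ] E) (v : Fin 2 → E) (x : E) :
    Theta n (fun i => U (v i)) (U x) = Theta n v x := by
  unfold Theta
  rw [tau_map, LinearIsometryEquiv.norm_map]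

omit [FiniteDimensional ℝ E] in
lemma tau_smul (v : Fin 2 → E) (c : ℝ) (x : E) : tau v (c • x) = c ^ 2 * tau v x := by
  unfold tau
  rw [inner_smul_right, inner_smul_right, mul_div_assoc', ]
  congr 1
  ring

omit [FiniteDimensional ℝ E] in
lemma Theta_smul (n : ℕ) (v : Fin 2 → E) {c : ℝ} (hc : 0 < c) (x : E) :
    Theta n v (c • x) = Theta n v x := by
  unfold Theta
  rw [tau_smul, norm_smul, Real.norm_of_nonneg hc.le]
  have h1 : √((c * ‖x‖) ^ 2 - c ^ 2 * tau v x) = c * √(‖x‖ ^ 2 - tau v x) := by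
    rw [mul_pow, ← mul_sub, Real.sqrt_mul (by positivity), Real.sqrt_sq hc.le]
  have h2 : √(c ^ 2 * tau v x) = c * √(tau v x) := by
    rw [Real.sqrt_mul (by positivity), Real.sqrt_sq hc.le]
  rw [h1, h2]
  have h3 : Real.pi * (c * √(‖x‖ ^ 2 - tau v x)) + 4 * (c * √(tau v x)) =
      c * (Real.pi * √(‖x‖ ^ 2 - tau v x) + 4 * √(tau v x)) := by ring
  rw [h3, mul_div_mul_left _ _ hc.ne']

variable [MeasurableSpace E] [BorelSpace E]

lemma measurable_gd : Measurable (gd : (Fin 2 → E) → ℝ) := by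
  have : Continuous (gd : (Fin 2 → E) → ℝ) := by unfold gd; fun_prop
  exact this.measurable

lemma measurable_Theta (n : ℕ) : Measurable (fun q : E × (Fin 2 → E) => Theta n q.2 q.1) := by
  have h1 : Measurable (fun q : E × (Fin 2 → E) => tau q.2 q.1) := by
    unfold tau
    apply Measurable.div
    · have : Continuous (fun q : E × (Fin 2 → E) => ⟪q.2 1, q.2 1⟫ * ⟪q.2 0, q.1⟫ ^ 2 -
        2 * ⟪q.2 0, q.2 1⟫ * ⟪q.2 0, q.1⟫ * ⟪q.2 1, q.1⟫ + ⟪q.2 0, q.2 0⟫ * ⟪q.2 1, q.1⟫ ^ 2) := by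
        fun_prop
      exact this.measurable
    · exact measurable_gd.comp measurable_snd
  unfold Theta
  have h2 : Measurable (fun q : E × (Fin 2 → E) => ‖q.1‖) := measurable_fst.norm
  exact ENNReal.measurable_ofReal.comp ((h2.div
    ((((h2.pow_const 2).sub h1).sqrt.const_mul Real.pi).add (h1.sqrt.const_mul 4))).pow_const n)

/-- almost every pair is linearly independent -/
lemma ae_gd (hE : 2 ≤ finrank ℝ E) : ∀ᵐ v : Fin 2 → E, gd v ≠ 0 := by
  have hmp := volume_preserving_finTwoArrow E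
  have hms : MeasurableSet {q : E × E | ⟪q.1, q.1⟫ * ⟪q.2, q.2⟫ - ⟪q.1, q.2⟫ ^ 2 = 0} := by
    have : Continuous (fun q : E × E => ⟪q.1, q.1⟫ * ⟪q.2, q.2⟫ - ⟪q.1, q.2⟫ ^ 2) := by fun_prop
    exact (isClosed_eq this continuous_const).measurableSet
  have hnull : (volume : Measure (E × E)) {q : E × E | ⟪q.1, q.1⟫ * ⟪q.2, q.2⟫ - ⟪q.1, q.2⟫ ^ 2 = 0} = 0 := by
    rw [Measure.volume_eq_prod, measure_prod_null hms]
    have hne : ∀ᵐ a : E, a ≠ 0 := by
      have : Nontrivial E := Module.nontrivial_of_finrank_pos (R := ℝ) (by omega)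
      exact (compl_mem_ae_iff (μ := (volume : Measure E)) (s := {0})).2 (measure_singleton 0)
    filter_upwards [hne] with a ha
    show volume (Prod.mk a ⁻¹' {q : E × E | ⟪q.1, q.1⟫ * ⟪q.2, q.2⟫ - ⟪q.1, q.2⟫ ^ 2 = 0}) = 0
    have hsub : (Prod.mk a ⁻¹' {q : E × E | ⟪q.1, q.1⟫ * ⟪q.2, q.2⟫ - ⟪q.1, q.2⟫ ^ 2 = 0}) ⊆
        (Submodule.span ℝ {a} : Set E) := by
      intro b hb
      have hb' : ⟪a, a⟫ * ⟪b, b⟫ - ⟪a, b⟫ ^ 2 = 0 := hb
      have hapos : 0 < ⟪a, a⟫ := by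
        rw [real_inner_self_eq_norm_sq]
        have := norm_pos_iff.2 ha
        positivity
      rw [SetLike.mem_coe, Submodule.mem_span_singleton]
      refine ⟨⟪a, b⟫ / ⟪a, a⟫, ?_⟩
      have h1 : ‖(⟪a, b⟫ / ⟪a, a⟫) • a - b‖ ^ 2 = 0 := by
        rw [norm_sub_sq_real, norm_smul, mul_pow, inner_smul_left, ← real_inner_self_eq_norm_sq a,
          ← real_inner_self_eq_norm_sq b, Real.norm_eq_abs, sq_abs]
        simp only [conj_trivial]
        field_simp
        linarith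
      have h2 : ‖(⟪a, b⟫ / ⟪a, a⟫) • a - b‖ = 0 := by
        exact pow_eq_zero_iff (two_ne_zero) |>.1 h1
      exact sub_eq_zero.1 (norm_eq_zero.1 h2)
    refine measure_mono_null hsub ?_
    apply Measure.addHaar_submodule
    intro htop
    have h3 := finrank_span_singleton (K := ℝ) ha
    rw [htop, finrank_top] at h3
    omega
  have h4 := hmp.measure_preimage hms.nullMeasurableSet
  rw [hnull] at h4
  rw [ae_iff]
  convert! h4 using 2
  ext v
  simp only [not_not, mem_ofPred_eq, mem_preimage]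
  rfl

end Pool.Agent.Helper876.AQ
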