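import Mathlib
import Pool.Agent.Helper876.AQ.Gram

set_option autoImplicit false

namespace Pool.Agent.Helper876.AQ

open MeasureTheory Metric Set Module Measure
open scoped ENNReal NNReal RealInnerProductSpace

variable {m : ℕ}

/-- `ℝ^(m+2)` -/
abbrev Em (m : ℕ) := EuclideanSpace ℝ (Fin (m + 2))

/-- first coordinate vector -/
noncomputable def e0 (m : ℕ) : Em m := EuclideanSpace.single 0 1

lemma norm_e0 : ‖e0 m‖ = 1 := by simp [e0]

lemma inner_e0 (x : Em m) : ⟪e0 m, x⟫ = x 0 := by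
  rw [e0, EuclideanSpace.inner_single_left]; simp

/-- the first `k` coordinates -/
abbrev pk (m k : ℕ) : Fin (m + 2) → Prop := fun i => i.val < k

lemma pn_one (x : Em m) : pn (pk m 1) x = |⟪e0 m, x⟫| := by
  rw [inner_e0, pn, Fin.sum_univ_succ]
  have : ∑ i : Fin (m + 1), (if pk m 1 i.succ then x i.succ ^ 2 else 0) = 0 := by
    apply Finset.sum_eq_zero
    intro i _
    rw [if_neg]
    simp [pk]
  rw [this]
  simp [pk, Real.sqrt_sq_eq_abs]

lemma pn_one' (x : Em m) : pn (fun i => ¬ pk m 1 i) x = ‖x - ⟪e0 m, x⟫ • e0 m‖ := by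
  have h1 := pn_sq (pk m 1) x
  have h2 := norm_sub_sq (norm_e0 (m := m)) x
  rw [pn_one, sq_abs] at h1
  have h3 : pn (fun i => ¬ pk m 1 i) x ^ 2 = ‖x - ⟪e0 m, x⟫ • e0 m‖ ^ 2 := by
    rw [h2]; linarith
  exact (pow_left_inj₀ (pn_nonneg _ _) (norm_nonneg _) two_ne_zero).1 h3

lemma pn_two (x : Em m) : pn (pk m 2) x ^ 2 = x 0 ^ 2 + x 1 ^ 2 := by
  rw [pn, Real.sq_sqrt (Finset.sum_nonneg fun i _ => by split_ifs <;> positivity),
    Fin.sum_univ_succ, Fin.sum_univ_succ]
  have : ∑ i : Fin m, (if pk m 2 i.succ.succ then x i.succ.succ ^ 2 else 0) = 0 := by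
    apply Finset.sum_eq_zero
    intro i _
    rw [if_neg]
    simp [pk]
  rw [this]
  simp [pk]

/-- transfer of a plane to the coordinate plane -/
lemma exists_plane_isometry (F : Submodule ℝ (Em m)) (hF : finrank ℝ F = 2) :
    ∃ V : Em m ≃ₗᵢ[ℝ] Em m, ∀ x, ‖F.orthogonalProjectionOnto x‖ ^ 2 = pn (pk m 2) (V x) ^ 2 := by
  set c : OrthonormalBasis (Fin 2) ℝ F := (stdOrthonormalBasis ℝ F).reindex (finCongr hF) with hc
  have hc01 : ⟪(c 0 : Em m), (c 1 : Em m)⟫ = 0 := c.orthonormal.2 (by decide)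
  have hc0 : ‖(c 0 : Em m)‖ = 1 := c.orthonormal.1 0
  have hc1 : ‖(c 1 : Em m)‖ = 1 := c.orthonormal.1 1
  let w : Fin (m + 2) → Em m := fun i => if i = 0 then (c 0 : Em m) else (c 1 : Em m)
  have h10 : (1 : Fin (m + 2)) ≠ 0 := by simp
  have hw0 : w 0 = c 0 := by simp [w]
  have hw1 : w 1 = c 1 := by simp [w]
  have ho : Orthonormal ℝ (({0, 1} : Set (Fin (m + 2))).domRestrict w) := by
    constructor
    · rintro ⟨i, hi⟩
      rcases hi with h | h
      · subst h
        show ‖w 0‖ = 1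
        rw [hw0, hc0]
      · rw [Set.mem_singleton_iff] at h
        subst h
        show ‖w 1‖ = 1
        rw [hw1, hc1]
    · rintro ⟨i, hi⟩ ⟨j, hj⟩ hij
      have hij' : i ≠ j := fun h => hij (Subtype.ext h)
      show ⟪w i, w j⟫ = 0
      rcases hi with h | h <;> rcases hj with h' | h'
      · exact absurd (h.trans h'.symm) hij'
      · rw [Set.mem_singleton_iff] at h'
        rw [h, h', hw0, hw1, hc01]
      · rw [Set.mem_singleton_iff] at h
        rw [h, h', hw0, hw1, real_inner_comm, hc01]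
      · rw [Set.mem_singleton_iff] at h h'
        exact absurd (h.trans h'.symm) hij'
  obtain ⟨b, hb⟩ := ho.exists_orthonormalBasis_extension_of_card_eq (by simp)
  have hb0 : b 0 = c 0 := by rw [hb 0 (by simp), hw0]
  have hb1 : b 1 = c 1 := by rw [hb 1 (by simp), hw1]
  refine ⟨b.repr, fun x => ?_⟩
  rw [pn_two, OrthonormalBasis.repr_apply_apply, OrthonormalBasis.repr_apply_apply, hb0, hb1]
  have h3 := c.sum_sq_norm_inner_right (F.orthogonalProjectionOnto x)
  rw [Fin.sum_univ_two] at h3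
  rw [← h3, Submodule.inner_orthogonalProjectionOnto_eq_of_mem_left,
    Submodule.inner_orthogonalProjectionOnto_eq_of_mem_left, Real.norm_eq_abs, Real.norm_eq_abs,
    sq_abs, sq_abs]

/-- transfer of a vector to the axis -/
lemma exists_axis_isometry {x : Em m} (hx : x ≠ 0) :
    ∃ U : Em m ≃ₗᵢ[ℝ] Em m, U x = ‖x‖ • e0 m := by
  have hxn : 0 < ‖x‖ := norm_pos_iff.2 hx
  have ho : Orthonormal ℝ (({0} : Set (Fin (m + 2))).domRestrict (fun _ : Fin (m + 2) => ‖x‖⁻¹ • x)) := by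
    constructor
    · intro i
      show ‖‖x‖⁻¹ • x‖ = 1
      rw [norm_smul, norm_inv, norm_norm, inv_mul_cancel₀ hxn.ne']
    · intro i j hij
      exact absurd (Subsingleton.elim i j) hij
  obtain ⟨b, hb⟩ := ho.exists_orthonormalBasis_extension_of_card_eq (by simp)
  have hb0 : b 0 = ‖x‖⁻¹ • x := hb 0 (by simp)
  refine ⟨b.repr, ?_⟩
  have h1 : x = ‖x‖ • b 0 := by rw [hb0, smul_smul, mul_inv_cancel₀ hxn.ne', one_smul]
  conv_lhs => rw [h1]
  rw [map_smul, b.repr_self]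
  rfl

/-- the integral `J` -/
noncomputable def JJ (m k : ℕ) (a b : ℝ) : ℝ≥0∞ :=
  ∫⁻ x in ball (0 : Em m) 1, ENNReal.ofReal ((‖x‖ / mn (pk m k) a b x) ^ (m + 2))

lemma ball_preimage (V : Em m ≃ₗᵢ[ℝ] Em m) : V ⁻¹' (ball (0 : Em m) 1) = ball 0 1 := by
  ext x; simp

lemma inner_avg {v : Fin 2 → Em m} (hv : gd v ≠ 0) :
    ∫⁻ x in ball (0 : Em m) 1, Theta (m + 2) v x = JJ m 2 4 Real.pi := by
  obtain ⟨V, hV⟩ := exists_plane_isometry _ (finrank_of_gd hv)
  have h1 : ∀ x, Theta (m + 2) v x =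
      (fun y => ENNReal.ofReal ((‖y‖ / mn (pk m 2) 4 Real.pi y) ^ (m + 2))) (V x) := by
    intro x
    have htau : tau v x = pn (pk m 2) (V x) ^ 2 := by rw [tau_eq hv, hV]
    unfold Theta
    simp only
    rw [htau, Real.sqrt_sq (pn_nonneg _ _), LinearIsometryEquiv.norm_map]
    have h2 := pn_sq (pk m 2) (V x)
    rw [LinearIsometryEquiv.norm_map] at h2
    have h3 : ‖x‖ ^ 2 - pn (pk m 2) (V x) ^ 2 = pn (fun i => ¬ pk m 2 i) (V x) ^ 2 := by linarith
    rw [h3, Real.sqrt_sq (pn_nonneg _ _)]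
    congr 3
    unfold mn
    ring
  rw [lintegral_congr h1, JJ]
  have h4 := V.measurePreserving.setLIntegral_comp_preimage_emb
    V.toHomeomorph.measurableEmbedding
    (fun y => ENNReal.ofReal ((‖y‖ / mn (pk m 2) 4 Real.pi y) ^ (m + 2))) (ball (0 : Em m) 1)
  rw [ball_preimage] at h4
  exact h4

/-- product of unit balls -/
abbrev BB (m k : ℕ) : Set (Fin k → Em m) := Set.pi Set.univ fun _ : Fin k => ball (0 : Em m) 1

lemma outer_inv {x : Em m} (hx : x ≠ 0) :
    ∫⁻ v in BB m 2, Theta (m + 2) v x = ∫⁻ v in BB m 2, Theta (m + 2) v (e0 m) := by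
  obtain ⟨U, hU⟩ := exists_axis_isometry hx
  have hxn : 0 < ‖x‖ := norm_pos_iff.2 hx
  have h1 : ∀ v, Theta (m + 2) v x = (fun w => Theta (m + 2) w (e0 m)) (fun i => U (v i)) := by
    intro v
    simp only
    rw [← Theta_map (m + 2) U v x, hU, Theta_smul _ _ hxn]
  rw [lintegral_congr h1]
  have hmp : MeasurePreserving (fun (v : Fin 2 → Em m) i => U (v i)) :=
    volume_preserving_pi fun _ => U.measurePreserving
  have hmeas : Measurable (fun w : Fin 2 → Em m => Theta (m + 2) w (e0 m)) :=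
    (measurable_Theta (m + 2)).comp measurable_prodMk_left
  have hBm : MeasurableSet (BB m 2) := MeasurableSet.univ_pi fun _ => measurableSet_ball
  have h2 := hmp.setLIntegral_comp_preimage hBm hmeas
  have h3 : (fun (v : Fin 2 → Em m) i => U (v i)) ⁻¹' (BB m 2) = BB m 2 := by
    ext v; simp [BB]
  rw [h3] at h2
  exact h2

lemma vol_BB (k : ℕ) : volume (BB m k) = (volume (ball (0 : Em m) 1)) ^ k := by
  rw [volume_pi_pi]; simp

lemma kball_ne_zero : volume (ball (0 : Em m) 1) ≠ 0 := (measure_ball_pos _ _ one_pos).ne'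

lemma kball_ne_top : volume (ball (0 : Em m) 1) ≠ ⊤ := measure_ball_lt_top.ne

/-- the average over pairs -/
lemma avg_pairs : ∫⁻ v in BB m 2, Theta (m + 2) v (e0 m) =
    volume (ball (0 : Em m) 1) * JJ m 2 4 Real.pi := by
  have hsw : ∫⁻ x in ball (0 : Em m) 1, ∫⁻ v in BB m 2, Theta (m + 2) v x =
      ∫⁻ v in BB m 2, ∫⁻ x in ball (0 : Em m) 1, Theta (m + 2) v x := by
    apply lintegral_lintegral_swap
    exact (measurable_Theta (m + 2)).aemeasurable
  have hL : ∫⁻ x in ball (0 : Em m) 1, ∫⁻ v in BB m 2, Theta (m + 2) v x =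
      ∫⁻ _x in ball (0 : Em m) 1, ∫⁻ v in BB m 2, Theta (m + 2) v (e0 m) := by
    apply lintegral_congr_ae
    apply ae_restrict_of_ae
    have hne : ∀ᵐ a : Em m, a ≠ 0 :=
      (compl_mem_ae_iff (μ := (volume : Measure (Em m))) (s := {0})).2 (measure_singleton 0)
    filter_upwards [hne] with x hx
    exact outer_inv hx
  have hR : ∫⁻ v in BB m 2, ∫⁻ x in ball (0 : Em m) 1, Theta (m + 2) v x =
      ∫⁻ _v in BB m 2, JJ m 2 4 Real.pi := by
    apply lintegral_congr_ae
    apply ae_restrict_of_ae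
    filter_upwards [ae_gd (E := Em m) (by simp)] with v hv
    exact inner_avg hv
  rw [hL, hR, setLIntegral_const, setLIntegral_const, vol_BB, sq, ← mul_assoc] at hsw
  have hk0 := kball_ne_zero (m := m)
  have hkt := kball_ne_top (m := m)
  rw [mul_comm] at hsw
  have : volume (ball (0 : Em m) 1) * (∫⁻ v in BB m 2, Theta (m + 2) v (e0 m)) =
      volume (ball (0 : Em m) 1) * (volume (ball (0 : Em m) 1) * JJ m 2 4 Real.pi) := by
    rw [hsw]; ring
  exact (ENNReal.mul_right_inj hk0 hkt).1 this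

lemma span_ne_bot {k : ℕ} {v : Fin (k + 1) → Em m} {i : Fin (k + 1)} (hi : v i ≠ 0) :
    0 < finrank ℝ (Submodule.span ℝ (Set.range v)) := by
  have : Nontrivial (Submodule.span ℝ (Set.range v)) :=
    ⟨⟨⟨v i, Submodule.subset_span ⟨i, rfl⟩⟩, 0, fun h => hi (congrArg Subtype.val h)⟩⟩
  exact finrank_pos

/-- the projection volumes as they occur in the definition -/
noncomputable def pv (m k : ℕ) (v : Fin k → Em m) : ℝ≥0∞ :=
  volume ((Submodule.span ℝ (Set.range v)).orthogonalProjectionOnto '' cyl (e0 m))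

lemma rpow_ofReal {a : ℝ} (ha : 0 < a) (n : ℕ) :
    (ENNReal.ofReal a) ^ (-(n : ℝ)) = ENNReal.ofReal ((1 / a) ^ n) := by
  rw [ENNReal.ofReal_rpow_of_pos ha, Real.rpow_neg ha.le, Real.rpow_natCast, one_div, inv_pow]

lemma rpow_anti {x y : ℝ≥0∞} (h : x ≤ y) (n : ℕ) : y ^ (-(n : ℝ)) ≤ x ^ (-(n : ℝ)) := by
  rw [ENNReal.rpow_neg, ENNReal.rpow_neg, ENNReal.inv_le_inv]
  exact ENNReal.rpow_le_rpow h (by positivity)

/-- upper bound for pairs -/
lemma pairs_le : ∫⁻ v in BB m 2, (pv m 2 v) ^ (-((m + 2 : ℕ) : ℝ)) ≤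
    volume (ball (0 : Em m) 1) * JJ m 2 4 Real.pi := by
  rw [← avg_pairs]
  apply lintegral_mono_ae
  apply ae_restrict_of_ae
  filter_upwards [ae_gd (E := Em m) (by simp)] with v hv
  have h1 := le_area (Submodule.span ℝ (Set.range v)) (norm_e0 (m := m)) (finrank_of_gd hv)
  set r := ‖(Submodule.span ℝ (Set.range v)).orthogonalProjectionOnto (e0 m)‖ with hr
  have hr0 : 0 ≤ r := norm_nonneg _
  have hr1 : r ≤ 1 := by
    rw [← norm_e0 (m := m)]; exact Submodule.norm_orthogonalProjectionOnto_apply_le _ _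
  have hpos : 0 < Real.pi * √(1 - r ^ 2) + 4 * r := by
    rcases lt_or_eq_of_le hr0 with h | h
    · have := Real.pi_pos
      positivity
    · rw [← h]
      have := Real.pi_pos
      simp; positivity
  refine (rpow_anti h1 (m + 2)).trans ?_
  rw [rpow_ofReal hpos, Theta, tau_eq hv, ← hr, norm_e0, one_pow, Real.sqrt_sq hr0]

/-- lower bound for single vectors -/
lemma single_ge : JJ m 1 2 2 ≤ ∫⁻ v in BB m 1, (pv m 1 v) ^ (-((m + 2 : ℕ) : ℝ)) := by
  have hmp := volume_preserving_funUnique (Fin 1) (Em m)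
  have h2 := hmp.setLIntegral_comp_preimage_emb (MeasurableEquiv.measurableEmbedding _)
    (fun x : Em m => ENNReal.ofReal ((‖x‖ / mn (pk m 1) 2 2 x) ^ (m + 2))) (ball (0 : Em m) 1)
  have h3 : (MeasurableEquiv.funUnique (Fin 1) (Em m)) ⁻¹' (ball (0 : Em m) 1) = BB m 1 := by
    ext v
    simp only [mem_preimage, BB, mem_univ_pi]
    constructor
    · intro h i
      have : i = default := Subsingleton.elim _ _
      rw [this]; exact h
    · intro h
      exact h default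
  rw [h3] at h2
  rw [JJ, ← h2]
  apply lintegral_mono_ae
  apply ae_restrict_of_ae
  have hne : ∀ᵐ v : Fin 1 → Em m, v 0 ≠ 0 := by
    have hne : ∀ᵐ a : Em m, a ≠ 0 :=
      (compl_mem_ae_iff (μ := (volume : Measure (Em m))) (s := {0})).2 (measure_singleton 0)
    exact hmp.quasiMeasurePreserving.ae hne
  filter_upwards [hne] with v hv
  show ENNReal.ofReal ((‖v 0‖ / mn (pk m 1) 2 2 (v 0)) ^ (m + 2)) ≤ _
  set F := Submodule.span ℝ (Set.range v) with hF
  have hmem : v 0 ∈ F := Submodule.subset_span ⟨0, rfl⟩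
  have hFeq : F = Submodule.span ℝ {v 0} := by
    rw [hF]; congr 1
    ext x
    constructor
    · rintro ⟨i, rfl⟩
      have : i = 0 := Subsingleton.elim _ _
      rw [this]; rfl
    · rintro rfl
      exact ⟨0, rfl⟩
  have hrank : finrank ℝ F = 1 := by rw [hFeq]; exact finrank_span_singleton hv
  have h4 := vol_proj_one F hrank (norm_e0 (m := m)) hmem hv
  rw [← pn_one, ← pn_one'] at h4
  have hvn : 0 < ‖v 0‖ := norm_pos_iff.2 hv
  have hmn : 0 < mn (pk m 1) 2 2 (v 0) := mn_pos _ (by norm_num) (by norm_num) hv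
  have h5 : 2 * ((pn (pk m 1) (v 0) + pn (fun i => ¬ pk m 1 i) (v 0)) / ‖v 0‖) =
      mn (pk m 1) 2 2 (v 0) / ‖v 0‖ := by
    unfold mn; ring
  rw [h5] at h4
  refine le_trans ?_ (rpow_anti h4 (m + 2))
  rw [rpow_ofReal (by positivity), one_div_div]

/-- crude bounds -/
lemma single_lt_top : ∫⁻ v in BB m 1, (pv m 1 v) ^ (-((m + 2 : ℕ) : ℝ)) ≠ ⊤ := by
  have hmp := volume_preserving_funUnique (Fin 1) (Em m)
  have hne : ∀ᵐ v : Fin 1 → Em m, v 0 ≠ 0 := by
    have hne : ∀ᵐ a : Em m, a ≠ 0 :=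
      (compl_mem_ae_iff (μ := (volume : Measure (Em m))) (s := {0})).2 (measure_singleton 0)
    exact hmp.quasiMeasurePreserving.ae hne
  have hle : ∫⁻ v in BB m 1, (pv m 1 v) ^ (-((m + 2 : ℕ) : ℝ)) ≤
      ∫⁻ _v in BB m 1, ENNReal.ofReal ((1 / kap 1) ^ (m + 2)) := by
    apply lintegral_mono_ae
    apply ae_restrict_of_ae
    filter_upwards [hne] with v hv
    have hFeq : Submodule.span ℝ (Set.range v) = Submodule.span ℝ {v 0} := by
      congr 1
      ext x
      constructor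
      · rintro ⟨i, rfl⟩
        have : i = 0 := Subsingleton.elim _ _
        rw [this]; rfl
      · rintro rfl
        exact ⟨0, rfl⟩
    have hrank : finrank ℝ (Submodule.span ℝ (Set.range v)) = 1 := by
      rw [hFeq]; exact finrank_span_singleton hv
    have h1 := le_vol_proj (Submodule.span ℝ (Set.range v)) (by omega) (norm_e0 (m := m))
    rw [hrank] at h1
    refine (rpow_anti h1 (m + 2)).trans ?_
    rw [rpow_ofReal (kap_pos 1)]
  refine ne_top_of_le_ne_top ?_ hle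
  rw [setLIntegral_const, vol_BB]
  exact ENNReal.mul_ne_top ENNReal.ofReal_ne_top (ENNReal.pow_ne_top kball_ne_top)

lemma pairs_pos : ∫⁻ v in BB m 2, (pv m 2 v) ^ (-((m + 2 : ℕ) : ℝ)) ≠ 0 := by
  have hle : ∫⁻ _v in BB m 2, ENNReal.ofReal ((1 / (2 ^ 2 * kap 2)) ^ (m + 2)) ≤
      ∫⁻ v in BB m 2, (pv m 2 v) ^ (-((m + 2 : ℕ) : ℝ)) := by
    apply lintegral_mono_ae
    apply ae_restrict_of_ae
    filter_upwards [ae_gd (E := Em m) (by simp)] with v hv
    have h1 := vol_proj_le (Submodule.span ℝ (Set.range v)) (by rw [finrank_of_gd hv]; norm_num)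
      (norm_e0 (m := m))
    rw [finrank_of_gd hv] at h1
    refine le_trans ?_ (rpow_anti h1 (m + 2))
    have := kap_pos 2
    rw [rpow_ofReal (by positivity)]
  intro h0
  rw [h0, setLIntegral_const, vol_BB] at hle
  have h1 : ENNReal.ofReal ((1 / (2 ^ 2 * kap 2)) ^ (m + 2)) * (volume (ball (0 : Em m) 1)) ^ 2 ≠ 0 := by
    apply mul_ne_zero
    · have := kap_pos 2
      rw [Ne, ENNReal.ofReal_eq_zero, not_le]
      positivity
    · exact pow_ne_zero _ kball_ne_zero
  exact h1 (le_antisymm hle bot_le)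

end Pool.Agent.Helper876.AQ
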