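import Mathlib
import Pool.Agent.Helper876.AQ.Avg

set_option autoImplicit false

namespace Pool.Agent.Helper876.AQ

open MeasureTheory Metric Set Module Measure
open scoped ENNReal NNReal RealInnerProductSpace

lemma kap_one : kap 1 = 2 := by
  unfold kap
  have : ((1 : ℕ) : ℝ) / 2 + 1 = 1 / 2 + 1 := by norm_num
  rw [this, Real.Gamma_add_one (by norm_num), Real.Gamma_one_half_eq, pow_one]
  have : √Real.pi ≠ 0 := (Real.sqrt_pos.2 Real.pi_pos).ne'
  field_simp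

lemma kap_two : kap 2 = Real.pi := by
  unfold kap
  have : ((2 : ℕ) : ℝ) / 2 + 1 = 2 := by norm_num
  rw [this, Real.Gamma_two, Real.sq_sqrt Real.pi_pos.le, div_one]

lemma kap_logconcave : kap 38 * kap 40 ≤ kap 39 ^ 2 := by
  unfold kap
  have e1 : ((38 : ℕ) : ℝ) / 2 + 1 = 20 := by norm_num
  have e2 : ((40 : ℕ) : ℝ) / 2 + 1 = 21 := by norm_num
  have e3 : ((39 : ℕ) : ℝ) / 2 + 1 = 1 / 2 * 20 + 1 / 2 * 21 := by norm_num
  rw [e1, e2, e3]
  have h := Real.Gamma_mul_add_mul_le_rpow_Gamma_mul_rpow_Gamma (s := 20) (t := 21) (a := 1 / 2)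
    (b := 1 / 2) (by norm_num) (by norm_num) (by norm_num) (by norm_num) (by norm_num)
  have g1 : 0 < Real.Gamma 20 := Real.Gamma_pos_of_pos (by norm_num)
  have g2 : 0 < Real.Gamma 21 := Real.Gamma_pos_of_pos (by norm_num)
  have g3 : 0 < Real.Gamma (1 / 2 * 20 + 1 / 2 * 21) := Real.Gamma_pos_of_pos (by norm_num)
  rw [← Real.sqrt_eq_rpow, ← Real.sqrt_eq_rpow, ← Real.sqrt_mul g1.le] at h
  have h2 : Real.Gamma (1 / 2 * 20 + 1 / 2 * 21) ^ 2 ≤ Real.Gamma 20 * Real.Gamma 21 := by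
    calc _ ≤ (√(Real.Gamma 20 * Real.Gamma 21)) ^ 2 := by gcongr
      _ = _ := Real.sq_sqrt (by positivity)
  rw [div_pow, div_mul_div_comm, ← pow_add, ← pow_mul]
  have hs : 0 < √Real.pi := Real.sqrt_pos.2 Real.pi_pos
  have : √Real.pi ^ (38 + 40) / (Real.Gamma 20 * Real.Gamma 21) ≤
      √Real.pi ^ (39 * 2) / Real.Gamma (1 / 2 * 20 + 1 / 2 * 21) ^ 2 := by
    have e4 : (38 + 40 : ℕ) = 39 * 2 := rfl
    rw [e4]
    gcongr
  exact this

lemma card1 : Fintype.card {i : Fin (38 + 2) // pk 38 1 i} = 1 := by decide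
lemma card1' : Fintype.card {i : Fin (38 + 2) // ¬ pk 38 1 i} = 39 := by decide
lemma card2 : Fintype.card {i : Fin (38 + 2) // pk 38 2 i} = 2 := by decide
lemma card2' : Fintype.card {i : Fin (38 + 2) // ¬ pk 38 2 i} = 38 := by decide

lemma JJ_one : JJ 38 1 2 2 = ENNReal.ofReal (kap 39 / (2 ^ 39 * 40)) := by
  have : Nonempty {i : Fin (38 + 2) // pk 38 1 i} := ⟨⟨0, by decide⟩⟩
  have : Nonempty {i : Fin (38 + 2) // ¬ pk 38 1 i} := ⟨⟨5, by decide⟩⟩
  have h := avg_mn (ι := Fin (38 + 2)) (pk 38 1) (a := 2) (b := 2) (by norm_num) (by norm_num)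
  rw [card1, card1', Fintype.card_fin, kap_one] at h
  rw [JJ, h]
  congr 1
  have e1 : ((38 + 2 : ℕ).factorial : ℝ) = 40 * (39 : ℕ).factorial := by
    have a : (38 + 2 : ℕ).factorial = 40 * (39 : ℕ).factorial := Nat.factorial_succ 39
    rw [a]; push_cast; ring
  rw [e1]
  have : ((39 : ℕ).factorial : ℝ) ≠ 0 := by positivity
  simp only [Nat.factorial_one, Nat.cast_one, pow_one, mul_one]
  field_simp

lemma JJ_two : JJ 38 2 4 Real.pi = ENNReal.ofReal (kap 38 / (Real.pi ^ 37 * 12480)) := by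
  have : Nonempty {i : Fin (38 + 2) // pk 38 2 i} := ⟨⟨0, by decide⟩⟩
  have : Nonempty {i : Fin (38 + 2) // ¬ pk 38 2 i} := ⟨⟨5, by decide⟩⟩
  have h := avg_mn (ι := Fin (38 + 2)) (pk 38 2) (a := 4) (b := Real.pi) (by norm_num) Real.pi_pos
  rw [card2, card2', Fintype.card_fin, kap_two] at h
  rw [JJ, h]
  congr 1
  have e1 : ((38 + 2 : ℕ).factorial : ℝ) = 40 * (39 * (38 : ℕ).factorial) := by
    have a : (38 + 2 : ℕ).factorial = 40 * (39 : ℕ).factorial := Nat.factorial_succ 39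
    have b : (39 : ℕ).factorial = 39 * (38 : ℕ).factorial := Nat.factorial_succ 38
    rw [a, b]; push_cast; ring
  rw [e1]
  have h38 : ((38 : ℕ).factorial : ℝ) ≠ 0 := by positivity
  have hpi : Real.pi ≠ 0 := Real.pi_ne_zero
  have e2 : ((2 : ℕ).factorial : ℝ) = 2 := by norm_num [Nat.factorial]
  rw [e2]
  have e3 : Real.pi ^ 38 = Real.pi ^ 37 * Real.pi := by ring
  rw [e3]
  field_simp
  ring

lemma pi_cube : Real.pi ^ 3 < 31.2 := by
  have h1 := Real.pi_lt_d4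
  have h2 := Real.pi_pos
  calc Real.pi ^ 3 < 3.1416 ^ 3 := by gcongr
    _ < 31.2 := by norm_num

end Pool.Agent.Helper876.AQ
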